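import Mathlib

set_option autoImplicit false

/-!
Basic facts on sums of decomposable arrays, and the submersion lemma used to bound maximal ranks.
-/

namespace Pool.Agent.MaxRank

open Finset

/-- `RK r T`: the array `T` is a sum of at most `r` decomposable arrays. -/
def RK {I J K : Type} (r : ℕ) (T : I → J → K → ℂ) : Prop :=
  ∃ (S : Type) (_ : Fintype S) (a : S → I → ℂ) (b : S → J → ℂ) (c : S → K → ℂ),
    Fintype.card S ≤ r ∧ ∀ i j k, T i j k = ∑ s, a s i * b s j * c s k

section api

variable {I J K : Type}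

lemma RK.mono {r r' : ℕ} {T : I → J → K → ℂ} (h : RK r T) (hr : r ≤ r') : RK r' T := by
  obtain ⟨S, fS, a, b, c, hc, hT⟩ := h
  exact ⟨S, fS, a, b, c, hc.trans hr, hT⟩

lemma RK.zero : RK 0 (fun (_ : I) (_ : J) (_ : K) => (0 : ℂ)) :=
  ⟨Fin 0, inferInstance, fun _ _ => 0, fun _ _ => 0, fun _ _ => 0, by simp, by simp⟩

lemma RK.single (a : I → ℂ) (b : J → ℂ) (c : K → ℂ) : RK 1 (fun i j k => a i * b j * c k) :=
  ⟨Unit, inferInstance, fun _ => a, fun _ => b, fun _ => c, by simp, by simp⟩

lemma RK.add {r r' : ℕ} {T T' : I → J → K → ℂ} (h : RK r T) (h' : RK r' T') :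
    RK (r + r') (fun i j k => T i j k + T' i j k) := by
  obtain ⟨S, fS, a, b, c, hc, hT⟩ := h
  obtain ⟨S', fS', a', b', c', hc', hT'⟩ := h'
  refine ⟨S ⊕ S', inferInstance, Sum.elim a a', Sum.elim b b', Sum.elim c c', ?_, ?_⟩
  · rw [Fintype.card_sum]; exact Nat.add_le_add hc hc'
  · intro i j k
    rw [Fintype.sum_sum_type]
    simp only [Sum.elim_inl, Sum.elim_inr]
    rw [← hT, ← hT']

lemma RK.smul {r : ℕ} {T : I → J → K → ℂ} (h : RK r T) (z : ℂ) :
    RK r (fun i j k => z * T i j k) := by
  obtain ⟨S, fS, a, b, c, hc, hT⟩ := h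
  refine ⟨S, fS, fun s i => z * a s i, b, c, hc, ?_⟩
  intro i j k
  show z * T i j k = _
  rw [hT, Finset.mul_sum]
  exact Finset.sum_congr rfl fun s _ => by ring

lemma RK.sum {ι : Type} [Fintype ι] {r : ℕ} {T : ι → I → J → K → ℂ} (h : ∀ x, RK r (T x)) :
    RK (Fintype.card ι * r) (fun i j k => ∑ x, T x i j k) := by
  choose S fS a b c hc hT using h
  refine ⟨Σ x, S x, inferInstance, fun q => a q.1 q.2, fun q => b q.1 q.2, fun q => c q.1 q.2,
    ?_, ?_⟩
  · rw [Fintype.card_sigma]
    calc ∑ x, Fintype.card (S x) ≤ ∑ _x : ι, r := Finset.sum_le_sum fun x _ => hc x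
      _ = Fintype.card ι * r := by simp
  · intro i j k
    rw [Fintype.sum_sigma]
    exact Finset.sum_congr rfl fun x _ => hT x i j k

lemma RK.comap {I' J' K' : Type} {r : ℕ} {T : I → J → K → ℂ} (h : RK r T)
    (f : I' → I) (g : J' → J) (e : K' → K) : RK r (fun i j k => T (f i) (g j) (e k)) := by
  obtain ⟨S, fS, a, b, c, hc, hT⟩ := h
  exact ⟨S, fS, fun s i => a s (f i), fun s j => b s (g j), fun s k => c s (e k), hc,
    fun i j k => hT _ _ _⟩

end api

section submersion

variable {I J K S : Type} [Fintype I] [Fintype J] [Fintype K] [Fintype S]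

/-- The map sending a family of triples of vectors to the sum of the decomposable arrays. -/
def Phi (p : S → (I → ℂ) × (J → ℂ) × (K → ℂ)) : I → J → K → ℂ :=
  fun i j k => ∑ s, (p s).1 i * (p s).2.1 j * (p s).2.2 k

lemma contDiff_Phi {n : WithTop ℕ∞} :
    ContDiff ℂ n (Phi : (S → (I → ℂ) × (J → ℂ) × (K → ℂ)) → I → J → K → ℂ) := by
  unfold Phi
  refine contDiff_pi.2 fun i => contDiff_pi.2 fun j => contDiff_pi.2 fun k => ?_
  fun_prop

lemma fderiv_Phi_apply (p v : S → (I → ℂ) × (J → ℂ) × (K → ℂ)) (w : I → J → K → ℂ)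
    (h : ∀ t : ℂ, Phi (p + t • v) = Phi p + t • w) : fderiv ℂ Phi p v = w := by
  have h1 : HasFDerivAt (Phi : (S → (I → ℂ) × (J → ℂ) × (K → ℂ)) → I → J → K → ℂ)
      (fderiv ℂ Phi p) (p + (0 : ℂ) • v) := by
    rw [zero_smul, add_zero]
    exact ((contDiff_Phi (n := 1)).differentiable (by norm_num) p).hasFDerivAt
  have h2 : HasDerivAt (fun t : ℂ => p + t • v) v 0 := by
    simpa using ((hasDerivAt_id (0 : ℂ)).smul_const v).const_add p
  have h3 := h1.comp_hasDerivAt (0 : ℂ) h2
  have h4 : HasDerivAt (fun t : ℂ => Phi p + t • w) w 0 := by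
    simpa using ((hasDerivAt_id (0 : ℂ)).smul_const w).const_add (Phi p)
  have h5 : (Phi ∘ fun t : ℂ => p + t • v) = fun t : ℂ => Phi p + t • w := by
    funext t; exact h t
  rw [h5] at h3
  exact h3.unique h4

/-- If the tangent spaces at the points `a s ⊗ b s ⊗ c s` span everything (expressed dually), then
every array has rank at most the number of points plus the rank of their sum. -/
theorem RK_of_center {r₀ : ℕ} (p : S → (I → ℂ) × (J → ℂ) × (K → ℂ))
    (hp : RK r₀ (Phi p))
    (hspan : ∀ F : I → J → K → ℂ,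
      (∀ s i, ∑ j, ∑ k, F i j k * (p s).2.1 j * (p s).2.2 k = 0) →
      (∀ s j, ∑ i, ∑ k, F i j k * (p s).1 i * (p s).2.2 k = 0) →
      (∀ s k, ∑ i, ∑ j, F i j k * (p s).1 i * (p s).2.1 j = 0) → F = 0)
    (T : I → J → K → ℂ) : RK (Fintype.card S + r₀) T := by
  classical
  -- surjectivity of the derivative
  have hsurj : (fderiv ℂ Phi p : (S → (I → ℂ) × (J → ℂ) × (K → ℂ)) →L[ℂ] (I → J → K → ℂ)).range
      = ⊤ := by
    by_contra hne
    obtain ⟨f, hf0, hf⟩ := Submodule.exists_le_ker_of_lt_top _ (lt_top_iff_ne_top.2 hne)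
    apply hf0
    set F : I → J → K → ℂ := fun i j k => f (Pi.single i (Pi.single j (Pi.single k 1))) with hF
    have hexp : ∀ T : I → J → K → ℂ, f T = ∑ i, ∑ j, ∑ k, F i j k * T i j k := by
      intro T
      have : T = ∑ i, ∑ j, ∑ k, T i j k •
          (Pi.single i (Pi.single j (Pi.single k 1)) : I → J → K → ℂ) := by
        funext i j k
        simp only [Finset.sum_apply, Pi.smul_apply, smul_eq_mul]
        rw [Finset.sum_eq_single i, Finset.sum_eq_single j, Finset.sum_eq_single k]
        · simp
        · intro k' _ hk'; simp [Pi.single_apply, hk'.symm]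
        · simp
        · intro j' _ hj'; simp [Pi.single_apply, hj'.symm]
        · simp
        · intro i' _ hi'; simp [Pi.single_apply, hi'.symm]
        · simp
      conv_lhs => rw [this]
      simp only [map_sum, map_smul, smul_eq_mul]
      refine Finset.sum_congr rfl fun i _ => Finset.sum_congr rfl fun j _ =>
        Finset.sum_congr rfl fun k _ => ?_
      rw [hF]; ring
    have hvan : ∀ v w, (∀ t : ℂ, Phi (p + t • v) = Phi p + t • w) → f w = 0 := by
      intro v w h
      have := fderiv_Phi_apply p v w h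
      have hmem : w ∈ (fderiv ℂ Phi p :
          (S → (I → ℂ) × (J → ℂ) × (K → ℂ)) →L[ℂ] (I → J → K → ℂ)).range := ⟨v, this⟩
      exact hf hmem
    have hF0 : F = 0 := by
      apply hspan
      · intro s i
        have := hvan (Pi.single s (Pi.single i 1, 0, 0))
          (fun i' j k => (Pi.single i 1 : I → ℂ) i' * (p s).2.1 j * (p s).2.2 k) (by
            intro t
            funext i' j k
            simp only [Phi, Pi.add_apply, Pi.smul_apply, Prod.fst_add, Prod.snd_add, Prod.smul_fst,
              Prod.smul_snd, smul_eq_mul]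
            rw [← Finset.add_sum_erase _ _ (Finset.mem_univ s),
              ← Finset.add_sum_erase (a := s) _ (fun s => (p s).1 i' * (p s).2.1 j * (p s).2.2 k)
                (Finset.mem_univ s)]
            have herase : ∀ s' ∈ Finset.univ.erase s,
                ((p s').1 i' + t * ((Pi.single s ((Pi.single i 1 : I → ℂ), (0 : J → ℂ), (0 : K → ℂ)) :
                  S → (I → ℂ) × (J → ℂ) × (K → ℂ)) s').1 i') *
                ((p s').2.1 j + t * ((Pi.single s ((Pi.single i 1 : I → ℂ), (0 : J → ℂ), (0 : K → ℂ)) :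
                  S → (I → ℂ) × (J → ℂ) × (K → ℂ)) s').2.1 j) *
                ((p s').2.2 k + t * ((Pi.single s ((Pi.single i 1 : I → ℂ), (0 : J → ℂ), (0 : K → ℂ)) :
                  S → (I → ℂ) × (J → ℂ) × (K → ℂ)) s').2.2 k) =
                (p s').1 i' * (p s').2.1 j * (p s').2.2 k := by
              intro s' hs'
              rw [Pi.single_eq_of_ne (Finset.ne_of_mem_erase hs')]
              simp
            rw [Finset.sum_congr rfl herase]
            simp only [Pi.single_eq_same, Pi.zero_apply]
            ring)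
        rw [hexp] at this
        rw [Finset.sum_eq_single i] at this
        · rw [← this]
          refine Finset.sum_congr rfl fun j _ => Finset.sum_congr rfl fun k _ => ?_
          simp; ring
        · intro i' _ hi'
          simp [Pi.single_apply, hi']
        · simp
      · intro s j
        have := hvan (Pi.single s (0, Pi.single j 1, 0))
          (fun i j' k => (p s).1 i * (Pi.single j 1 : J → ℂ) j' * (p s).2.2 k) (by
            intro t
            funext i j' k
            simp only [Phi, Pi.add_apply, Pi.smul_apply, Prod.fst_add, Prod.snd_add, Prod.smul_fst,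
              Prod.smul_snd, smul_eq_mul]
            rw [← Finset.add_sum_erase _ _ (Finset.mem_univ s),
              ← Finset.add_sum_erase (a := s) _ (fun s => (p s).1 i * (p s).2.1 j' * (p s).2.2 k)
                (Finset.mem_univ s)]
            have herase : ∀ s' ∈ Finset.univ.erase s,
                ((p s').1 i + t * ((Pi.single s ((0 : I → ℂ), (Pi.single j 1 : J → ℂ), (0 : K → ℂ)) :
                  S → (I → ℂ) × (J → ℂ) × (K → ℂ)) s').1 i) *
                ((p s').2.1 j' + t * ((Pi.single s ((0 : I → ℂ), (Pi.single j 1 : J → ℂ), (0 : K → ℂ)) :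
                  S → (I → ℂ) × (J → ℂ) × (K → ℂ)) s').2.1 j') *
                ((p s').2.2 k + t * ((Pi.single s ((0 : I → ℂ), (Pi.single j 1 : J → ℂ), (0 : K → ℂ)) :
                  S → (I → ℂ) × (J → ℂ) × (K → ℂ)) s').2.2 k) =
                (p s').1 i * (p s').2.1 j' * (p s').2.2 k := by
              intro s' hs'
              rw [Pi.single_eq_of_ne (Finset.ne_of_mem_erase hs')]
              simp
            rw [Finset.sum_congr rfl herase]
            simp only [Pi.single_eq_same, Pi.zero_apply]
            ring)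
        rw [hexp] at this
        rw [← this]
        refine Finset.sum_congr rfl fun i _ => ?_
        rw [Finset.sum_eq_single j]
        · refine Finset.sum_congr rfl fun k _ => ?_
          simp; ring
        · intro j' _ hj'
          simp [Pi.single_apply, hj']
        · simp
      · intro s k
        have := hvan (Pi.single s (0, 0, Pi.single k 1))
          (fun i j k' => (p s).1 i * (p s).2.1 j * (Pi.single k 1 : K → ℂ) k') (by
            intro t
            funext i j k'
            simp only [Phi, Pi.add_apply, Pi.smul_apply, Prod.fst_add, Prod.snd_add, Prod.smul_fst,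
              Prod.smul_snd, smul_eq_mul]
            rw [← Finset.add_sum_erase _ _ (Finset.mem_univ s),
              ← Finset.add_sum_erase (a := s) _ (fun s => (p s).1 i * (p s).2.1 j * (p s).2.2 k')
                (Finset.mem_univ s)]
            have herase : ∀ s' ∈ Finset.univ.erase s,
                ((p s').1 i + t * ((Pi.single s ((0 : I → ℂ), (0 : J → ℂ), (Pi.single k 1 : K → ℂ)) :
                  S → (I → ℂ) × (J → ℂ) × (K → ℂ)) s').1 i) *
                ((p s').2.1 j + t * ((Pi.single s ((0 : I → ℂ), (0 : J → ℂ), (Pi.single k 1 : K → ℂ)) :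
                  S → (I → ℂ) × (J → ℂ) × (K → ℂ)) s').2.1 j) *
                ((p s').2.2 k' + t * ((Pi.single s ((0 : I → ℂ), (0 : J → ℂ), (Pi.single k 1 : K → ℂ)) :
                  S → (I → ℂ) × (J → ℂ) × (K → ℂ)) s').2.2 k') =
                (p s').1 i * (p s').2.1 j * (p s').2.2 k' := by
              intro s' hs'
              rw [Pi.single_eq_of_ne (Finset.ne_of_mem_erase hs')]
              simp
            rw [Finset.sum_congr rfl herase]
            simp only [Pi.single_eq_same, Pi.zero_apply]
            ring)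
        rw [hexp] at this
        rw [← this]
        refine Finset.sum_congr rfl fun i _ => Finset.sum_congr rfl fun j _ => ?_
        rw [Finset.sum_eq_single k]
        · simp; ring
        · intro k' _ hk'
          simp [Pi.single_apply, hk']
        · simp
    apply LinearMap.ext
    intro T
    rw [hexp, hF0]; simp
  -- local surjectivity
  have hstrict : HasStrictFDerivAt (Phi : (S → (I → ℂ) × (J → ℂ) × (K → ℂ)) → I → J → K → ℂ)
      (fderiv ℂ Phi p) p :=
    ((contDiff_Phi (n := 1)).contDiffAt).hasStrictFDerivAt (by norm_num)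
  have hmap := hstrict.map_nhds_eq_of_surj hsurj
  have hrange : Set.range (Phi : (S → (I → ℂ) × (J → ℂ) × (K → ℂ)) → I → J → K → ℂ) ∈
      nhds (Phi p) := by
    rw [← hmap]; exact Filter.range_mem_map
  -- choose a small multiple
  have hcont : Filter.Tendsto (fun t : ℂ => Phi p + t • T) (nhds 0) (nhds (Phi p)) := by
    have : Continuous (fun t : ℂ => Phi p + t • T) := by fun_prop
    simpa using this.tendsto 0
  have hev := hcont.eventually (Filter.eventually_of_mem hrange fun x hx => hx)
  obtain ⟨t, ht, ht0⟩ : ∃ t : ℂ, Phi p + t • T ∈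
      Set.range (Phi : (S → (I → ℂ) × (J → ℂ) × (K → ℂ)) → I → J → K → ℂ) ∧ t ≠ 0 := by
    have h1 : ∀ᶠ t in nhdsWithin (0 : ℂ) {0}ᶜ, Phi p + t • T ∈
      Set.range (Phi : (S → (I → ℂ) × (J → ℂ) × (K → ℂ)) → I → J → K → ℂ) :=
      hev.filter_mono nhdsWithin_le_nhds
    have h2 : ∀ᶠ t in nhdsWithin (0 : ℂ) {0}ᶜ, t ≠ 0 := eventually_mem_nhdsWithin
    exact (h1.and h2).exists
  obtain ⟨q, hq⟩ := ht
  have hTeq : T = fun i j k => t⁻¹ * Phi q i j k + (-t⁻¹) * Phi p i j k := by
    funext i j k
    rw [hq]
    simp only [Pi.add_apply, Pi.smul_apply, smul_eq_mul]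
    field_simp
    ring
  rw [hTeq]
  refine RK.add (RK.smul ?_ _) (RK.smul hp _)
  exact ⟨S, inferInstance, fun s => (q s).1, fun s => (q s).2.1, fun s => (q s).2.2, le_rfl,
    fun i j k => rfl⟩

end submersion

end Pool.Agent.MaxRank
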