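import Pool.Agent.MaxRank.Generic

set_option autoImplicit false

/-!
The configuration of `3k² + 2k` points in `(ℂ^{3k})^{⊗3}` and the resulting bound for all arrays.
-/

namespace Pool.Agent.MaxRank

open Finset Matrix

/-- The index set of the coordinates, in `k` groups of three. -/
abbrev D (k : ℕ) : Type := ZMod k × Fin 3

/-- The index set of the points. -/
abbrev Pt (k : ℕ) : Type := (ZMod k × ZMod k × Fin 3) ⊕ (ZMod k × Fin 2)

section config

variable {k : ℕ} [NeZero k]

/-- The points of the configuration. -/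
def pts (x y : ZMod k → ℂ) : Pt k → (D k → ℂ) × (D k → ℂ) × (D k → ℂ)
  | Sum.inl (i, j, t) =>
      (fun q => if q.1 = i then dl q.2 t + x j else 0,
       fun q => if q.1 = j then dl q.2 t + y i else 0,
       fun q => if q.1 = -i - j then dl q.2 t + y i * w3 q.2 else 0)
  | Sum.inr (j, r) =>
      (fun _ => 0,
       fun q => if q.1 = j then (if r = 0 then 1 else ((q.2 : ℕ) : ℂ)) else 0,
       fun _ => 1)

lemma sum_block (a : ZMod k) (H : D k → ℂ) (φ : Fin 3 → ℂ) :
    ∑ q : D k, H q * (if q.1 = a then φ q.2 else 0) = ∑ u, H (a, u) * φ u := by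
  rw [Fintype.sum_prod_type, Finset.sum_eq_single a]
  · simp
  · intro b _ hb; simp [hb]
  · simp

lemma sum_block2 (b c : ZMod k) (F : D k → D k → ℂ) (ψ φ : Fin 3 → ℂ) :
    ∑ q : D k, ∑ q' : D k, F q q' * (if q.1 = b then ψ q.2 else 0) *
      (if q'.1 = c then φ q'.2 else 0) = ∑ u, ∑ v, F (b, u) (c, v) * ψ u * φ v := by
  have h1 : ∀ q : D k, ∑ q' : D k, F q q' * (if q.1 = b then ψ q.2 else 0) *
      (if q'.1 = c then φ q'.2 else 0) =
      (∑ v, F q (c, v) * φ v) * (if q.1 = b then ψ q.2 else 0) := by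
    intro q
    rw [sum_block c (fun q' => F q q' * (if q.1 = b then ψ q.2 else 0)) φ, Finset.sum_mul]
    exact Finset.sum_congr rfl fun v _ => by ring
  rw [Finset.sum_congr rfl fun q _ => h1 q, sum_block b (fun q => ∑ v, F q (c, v) * φ v) ψ]
  refine Finset.sum_congr rfl fun u _ => ?_
  rw [Finset.sum_mul]
  exact Finset.sum_congr rfl fun v _ => by ring

theorem pts_span {x y : ZMod k → ℂ}
    (hA : ∀ i j i' j' : ZMod k, i ≠ i' → j ≠ j' → (MA (x j) (x j') (y i) (y i')).det ≠ 0)
    (hB : ∀ i j : ZMod k, (MB (x j) (y i)).det ≠ 0)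
    (F : D k → D k → D k → ℂ)
    (h1 : ∀ s q, ∑ q2, ∑ q3, F q q2 q3 * (pts x y s).2.1 q2 * (pts x y s).2.2 q3 = 0)
    (h2 : ∀ s q, ∑ q1, ∑ q3, F q1 q q3 * (pts x y s).1 q1 * (pts x y s).2.2 q3 = 0)
    (h3 : ∀ s q, ∑ q1, ∑ q2, F q1 q2 q * (pts x y s).1 q1 * (pts x y s).2.1 q2 = 0) : F = 0 := by
  have e1 : ∀ (i j : ZMod k) (t : Fin 3) (q : D k), ∑ u, ∑ v, F q (j, u) (-i - j, v) *
      (dl u t + y i) * (dl v t + y i * w3 v) = 0 := by
    intro i j t q
    have := h1 (Sum.inl (i, j, t)) q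
    simp only [pts] at this
    rw [sum_block2 j (-i - j) (fun q2 q3 => F q q2 q3) (fun u => dl u t + y i)
      (fun v => dl v t + y i * w3 v)] at this
    exact this
  have e2 : ∀ (i j : ZMod k) (t : Fin 3) (q : D k), ∑ s, ∑ v, F (i, s) q (-i - j, v) *
      (dl s t + x j) * (dl v t + y i * w3 v) = 0 := by
    intro i j t q
    have := h2 (Sum.inl (i, j, t)) q
    simp only [pts] at this
    rw [sum_block2 i (-i - j) (fun q1 q3 => F q1 q q3) (fun u => dl u t + x j)
      (fun v => dl v t + y i * w3 v)] at this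
    exact this
  have e3 : ∀ (i j : ZMod k) (t : Fin 3) (q : D k), ∑ s, ∑ u, F (i, s) (j, u) q *
      (dl s t + x j) * (dl u t + y i) = 0 := by
    intro i j t q
    have := h3 (Sum.inl (i, j, t)) q
    simp only [pts] at this
    rw [sum_block2 i j (fun q1 q2 => F q1 q2 q) (fun u => dl u t + x j)
      (fun u => dl u t + y i)] at this
    exact this
  have e4 : ∀ (j : ZMod k) (r : Fin 2) (q : D k),
      ∑ u, (∑ q3, F q (j, u) q3) * (if r = 0 then 1 else ((u : ℕ) : ℂ)) = 0 := by
    intro j r q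
    have := h1 (Sum.inr (j, r)) q
    simp only [pts, mul_one] at this
    rw [← sum_block j (fun q2 => ∑ q3, F q q2 q3) (fun u => if r = 0 then 1 else ((u : ℕ) : ℂ))]
    refine Eq.trans ?_ this
    refine Finset.sum_congr rfl fun q2 _ => ?_
    rw [Finset.sum_mul]
  -- blocks off the configuration
  have z1 : ∀ i j l : ZMod k, l ≠ -i - j → ∀ s u v, F (i, s) (j, u) (l, v) = 0 := by
    intro i j l hl
    have hi : i ≠ -j - l := by
      intro h; apply hl; rw [h]; ring
    have hj : j ≠ -i - l := by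
      intro h; apply hl; rw [h]; ring
    refine condA_of_det (hA i j (-j - l) (-i - l) hi hj) (fun s u v => F (i, s) (j, u) (l, v)) ?_
    refine ⟨fun s t => ?_, fun u t => ?_, fun v t => ?_⟩
    · have := e1 (-j - l) j t (i, s)
      rw [show -(-j - l) - j = l by ring] at this
      exact this
    · have := e2 i (-i - l) t (j, u)
      rw [show -i - (-i - l) = l by ring] at this
      exact this
    · exact e3 i j t (l, v)
  -- blocks on the configuration
  have z2 : ∀ i j : ZMod k, ∀ s u v, F (i, s) (j, u) (-i - j, v) = 0 := by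
    intro i j
    have hq3 : ∀ s u, ∑ q3, F (i, s) (j, u) q3 = ∑ v, F (i, s) (j, u) (-i - j, v) := by
      intro s u
      rw [Fintype.sum_prod_type, Finset.sum_eq_single (-i - j)]
      · intro l _ hl
        exact Finset.sum_eq_zero fun v _ => z1 i j l hl s u v
      · simp
    refine condB_of_det (hB i j) (fun s u v => F (i, s) (j, u) (-i - j, v)) ?_
    refine ⟨fun s t => e1 i j t (i, s), fun u t => e2 i j t (j, u),
      fun v t => e3 i j t (-i - j, v), fun s => ?_, fun s => ?_⟩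
    · have := e4 j 0 (i, s)
      simp only [hq3] at this
      simpa using this
    · have := e4 j 1 (i, s)
      simp only [hq3, Fin.isValue, one_ne_zero, if_false] at this
      refine Eq.trans ?_ this
      refine Finset.sum_congr rfl fun u _ => ?_
      rw [Finset.sum_mul]
  funext ⟨i, s⟩ ⟨j, u⟩ ⟨l, v⟩
  by_cases hl : l = -i - j
  · rw [hl]; exact z2 i j s u v
  · exact z1 i j l hl s u v

/-- The structure tensor of the cyclic group, with weights, has rank at most `k`. -/
lemma RK_group (f g h : D k → ℂ) :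
    RK k (fun q1 q2 q3 : D k => if q1.1 + q2.1 + q3.1 = 0 then f q1 * g q2 * h q3 else 0) := by
  refine ⟨ZMod k, inferInstance,
    fun c q => ZMod.stdAddChar (c * q.1) * f q,
    fun c q => ZMod.stdAddChar (c * q.1) * g q,
    fun c q => ((k : ℂ)⁻¹ * ZMod.stdAddChar (c * q.1)) * h q, by rw [ZMod.card], ?_⟩
  intro q1 q2 q3
  have hk : (k : ℂ) ≠ 0 := by exact_mod_cast NeZero.ne k
  have hsum := AddChar.sum_mulShift (R := ZMod k) (R' := ℂ) (q1.1 + q2.1 + q3.1)
    (ZMod.isPrimitive_stdAddChar k)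
  rw [ZMod.card] at hsum
  have : ∀ c : ZMod k, ZMod.stdAddChar (c * q1.1) * f q1 * (ZMod.stdAddChar (c * q2.1) * g q2) *
      ((k : ℂ)⁻¹ * ZMod.stdAddChar (c * q3.1) * h q3) =
      ZMod.stdAddChar (c * (q1.1 + q2.1 + q3.1)) * ((k : ℂ)⁻¹ * (f q1 * g q2 * h q3)) := by
    intro c
    rw [mul_add, mul_add, AddChar.map_add_eq_mul, AddChar.map_add_eq_mul]
    ring
  rw [Finset.sum_congr rfl fun c _ => this c, ← Finset.sum_mul, hsum]
  by_cases h0 : q1.1 + q2.1 + q3.1 = 0
  · simp only [h0, if_true]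
    field_simp
  · simp only [h0, if_false]
    simp

lemma local_identity (x y : ℂ) (s u v : Fin 3) :
    ∑ t : Fin 3, (dl s t + x) * (dl u t + y) * (dl v t + y * w3 v) =
      ((((∑ t : Fin 3, ((1 - y) * dl s t) * dl u t * dl v t) +
      (∑ t : Fin 3, (y * dl s t) * (dl u t + 1) * (dl v t + w3 v))) +
      (∑ t : Fin 3, 1 * (x * dl u t) * dl v t)) +
      y ^ 2 * (1 + 3 * x) * w3 v) + (y * x * (1 + w3 v) + (-y) * 1 * w3 v) := by
  fin_cases s <;> fin_cases u <;> fin_cases v <;>
    simp only [Fin.zero_eta, Fin.mk_one, Fin.reduceFinMk, Fin.isValue, Fin.sum_univ_three, dl00,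
      dl01, dl02, dl10, dl11, dl12, dl20, dl21, dl22, w30, w31, w32] <;> ring

/-- The sum of the points of the configuration has rank at most `12 k`. -/
theorem RK_center (x y : ZMod k → ℂ) : RK (12 * k) (Phi (pts x y)) := by
  have hPhi : Phi (pts x y) = fun q1 q2 q3 : D k =>
      ((((∑ t : Fin 3, (if q1.1 + q2.1 + q3.1 = 0 then
        ((1 - y q1.1) * dl q1.2 t) * dl q2.2 t * dl q3.2 t else 0)) +
      (∑ t : Fin 3, (if q1.1 + q2.1 + q3.1 = 0 then
        (y q1.1 * dl q1.2 t) * (dl q2.2 t + 1) * (dl q3.2 t + w3 q3.2) else 0))) +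
      (∑ t : Fin 3, (if q1.1 + q2.1 + q3.1 = 0 then
        1 * (x q2.1 * dl q2.2 t) * dl q3.2 t else 0))) +
      (if q1.1 + q2.1 + q3.1 = 0 then y q1.1 ^ 2 * (1 + 3 * x q2.1) * w3 q3.2 else 0)) +
      ((if q1.1 + q2.1 + q3.1 = 0 then y q1.1 * x q2.1 * (1 + w3 q3.2) else 0) +
      (if q1.1 + q2.1 + q3.1 = 0 then (-y q1.1) * 1 * w3 q3.2 else 0)) := by
    funext ⟨i, s⟩ ⟨j, u⟩ ⟨l, v⟩
    have h1 : Phi (pts x y) (i, s) (j, u) (l, v) = ∑ t : Fin 3,
        (if i + j + l = 0 then (dl s t + x j) * (dl u t + y i) * (dl v t + y i * w3 v)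
          else 0) := by
      simp only [Phi, Fintype.sum_sum_type, pts, Fintype.sum_prod_type, zero_mul,
        Finset.sum_const_zero, add_zero]
      rw [Finset.sum_eq_single i, Finset.sum_eq_single j]
      · refine Finset.sum_congr rfl fun t _ => ?_
        by_cases h0 : i + j + l = 0
        · have hl : l = -i - j := by rw [← sub_eq_zero, ← h0]; ring
          simp only [hl, if_true]
          rw [if_pos (by ring)]
        · have hl : ¬ l = -i - j := by
            intro h; apply h0; rw [h]; ring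
          simp only [hl, h0, if_false, mul_zero]
      · intro j' _ hj'
        simp [hj'.symm]
      · simp
      · intro i' _ hi'
        simp [hi'.symm]
      · simp
    rw [h1]
    by_cases h0 : i + j + l = 0
    · simp only [h0, if_true]
      exact local_identity (x j) (y i) s u v
    · simp only [h0, if_false, Finset.sum_const_zero, add_zero]
  rw [hPhi]
  have hA : RK (Fintype.card (Fin 3) * k) (fun q1 q2 q3 : D k =>
      ∑ t : Fin 3, (if q1.1 + q2.1 + q3.1 = 0 then
        ((1 - y q1.1) * dl q1.2 t) * dl q2.2 t * dl q3.2 t else 0)) :=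
    RK.sum fun t => RK_group (fun q => (1 - y q.1) * dl q.2 t) (fun q => dl q.2 t)
      (fun q => dl q.2 t)
  have hB : RK (Fintype.card (Fin 3) * k) (fun q1 q2 q3 : D k =>
      ∑ t : Fin 3, (if q1.1 + q2.1 + q3.1 = 0 then
        (y q1.1 * dl q1.2 t) * (dl q2.2 t + 1) * (dl q3.2 t + w3 q3.2) else 0)) :=
    RK.sum fun t => RK_group (fun q => y q.1 * dl q.2 t) (fun q => dl q.2 t + 1)
      (fun q => dl q.2 t + w3 q.2)
  have hC : RK (Fintype.card (Fin 3) * k) (fun q1 q2 q3 : D k =>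
      ∑ t : Fin 3, (if q1.1 + q2.1 + q3.1 = 0 then
        1 * (x q2.1 * dl q2.2 t) * dl q3.2 t else 0)) :=
    RK.sum fun t => RK_group (fun _ => 1) (fun q => x q.1 * dl q.2 t) (fun q => dl q.2 t)
  have hD : RK k (fun q1 q2 q3 : D k => if q1.1 + q2.1 + q3.1 = 0 then
      y q1.1 ^ 2 * (1 + 3 * x q2.1) * w3 q3.2 else 0) :=
    RK_group (fun q => y q.1 ^ 2) (fun q => 1 + 3 * x q.1) (fun q => w3 q.2)
  have hE1 : RK k (fun q1 q2 q3 : D k => if q1.1 + q2.1 + q3.1 = 0 then
      y q1.1 * x q2.1 * (1 + w3 q3.2) else 0) :=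
    RK_group (fun q => y q.1) (fun q => x q.1) (fun q => 1 + w3 q.2)
  have hE2 : RK k (fun q1 q2 q3 : D k => if q1.1 + q2.1 + q3.1 = 0 then
      (-y q1.1) * 1 * w3 q3.2 else 0) :=
    RK_group (fun q => -y q.1) (fun _ => 1) (fun q => w3 q.2)
  refine ((((hA.add hB).add hC).add hD).add (hE1.add hE2)).mono ?_
  rw [Fintype.card_fin]
  omega

/-- Every `3k × 3k × 3k` array has rank at most `3k² + 14k`. -/
theorem RK_all (T : D k → D k → D k → ℂ) : RK (3 * k ^ 2 + 14 * k) T := by
  obtain ⟨x, y, hA, hB⟩ := exists_generic k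
  have := RK_of_center (pts x y) (RK_center x y) (fun F h1 h2 h3 =>
    pts_span hA hB F h1 h2 h3) T
  refine this.mono ?_
  rw [Fintype.card_sum, Fintype.card_prod, Fintype.card_prod, Fintype.card_prod, ZMod.card,
    Fintype.card_fin, Fintype.card_fin]
  nlinarith

end config

end Pool.Agent.MaxRank
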