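import Pool.Agent.MaxRank.Local

set_option autoImplicit false

/-!
Generic parameters: there are numbers `x j`, `y i` such that all local linear systems are
nonsingular at the same time.
-/

namespace Pool.Agent.MaxRank

open Finset Matrix

/-- The index type of the coordinates of a `3 × 3 × 3` block. -/
abbrev B3 : Type := Fin 3 × Fin 3 × Fin 3

/-- The matrix of the local equations `CondA`. -/
def MA {R : Type} [CommRing R] (x x' y y' : R) : Matrix B3 B3 R := fun r c =>
  if r.1 = 0 then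
    (if c.1 = r.2.2 then (dl c.2.1 r.2.1 + y') * (dl c.2.2 r.2.1 + y' * w3 c.2.2) else 0)
  else if r.1 = 1 then
    (if c.2.1 = r.2.2 then (dl c.1 r.2.1 + x') * (dl c.2.2 r.2.1 + y * w3 c.2.2) else 0)
  else (if c.2.2 = r.2.2 then (dl c.1 r.2.1 + x) * (dl c.2.1 r.2.1 + y) else 0)

/-- The matrix of (a square subsystem of) the local equations `CondB`. -/
def MB {R : Type} [CommRing R] (x y : R) : Matrix B3 B3 R := fun r c =>
  if r.1 = 0 then
    (if c.1 = r.2.2 then (dl c.2.1 r.2.1 + y) * (dl c.2.2 r.2.1 + y * w3 c.2.2) else 0)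
  else if r.1 = 1 then
    (if r.2.2 = r.2.1 then (if c.1 = r.2.1 then 1 else 0)
      else (if c.2.1 = r.2.2 then (dl c.1 r.2.1 + x) * (dl c.2.2 r.2.1 + y * w3 c.2.2) else 0))
  else
    (if r.2.2 = r.2.1 then (if c.1 = r.2.1 then ((c.2.1 : ℕ) : R) else 0)
      else (if c.2.2 = r.2.2 then (dl c.1 r.2.1 + x) * (dl c.2.1 r.2.1 + y) else 0))

lemma map_dl {R R' : Type} [CommRing R] [CommRing R'] (f : R →+* R') (a b : Fin 3) :
    f (dl a b) = dl a b := by
  unfold dl; split_ifs <;> simp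

lemma map_w3 {R R' : Type} [CommRing R] [CommRing R'] (f : R →+* R') (a : Fin 3) :
    f (w3 a) = w3 a := by
  unfold w3; split_ifs <;> simp [map_ofNat]

lemma map_MA {R R' : Type} [CommRing R] [CommRing R'] (f : R →+* R') (x x' y y' : R) :
    f.mapMatrix (MA x x' y y') = MA (f x) (f x') (f y) (f y') := by
  ext r c
  simp only [RingHom.mapMatrix_apply, Matrix.map_apply, MA]
  split_ifs <;> simp [map_dl, map_w3]

lemma map_MB {R R' : Type} [CommRing R] [CommRing R'] (f : R →+* R') (x y : R) :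
    f.mapMatrix (MB x y) = MB (f x) (f y) := by
  ext r c
  simp only [RingHom.mapMatrix_apply, Matrix.map_apply, MB]
  split_ifs <;> simp [map_dl, map_w3]

section sums
variable {R : Type} [CommRing R]

lemma sum_ite_fst (q : Fin 3) (A : Fin 3 → Fin 3 → R) (G : Fin 3 → Fin 3 → Fin 3 → R) :
    ∑ s, ∑ u, ∑ v, (if s = q then A u v else 0) * G s u v = ∑ u, ∑ v, G q u v * A u v := by
  rw [Finset.sum_eq_single q]
  · simp [mul_comm]
  · intro s _ hs; simp [hs]
  · simp

lemma sum_ite_snd (q : Fin 3) (A : Fin 3 → Fin 3 → R) (G : Fin 3 → Fin 3 → Fin 3 → R) :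
    ∑ s, ∑ u, ∑ v, (if u = q then A s v else 0) * G s u v = ∑ s, ∑ v, G s q v * A s v := by
  refine Finset.sum_congr rfl fun s _ => ?_
  rw [Finset.sum_eq_single q]
  · simp [mul_comm]
  · intro s _ hs; simp [hs]
  · simp

lemma sum_ite_trd (q : Fin 3) (A : Fin 3 → Fin 3 → R) (G : Fin 3 → Fin 3 → Fin 3 → R) :
    ∑ s, ∑ u, ∑ v, (if v = q then A s u else 0) * G s u v = ∑ s, ∑ u, G s u q * A s u := by
  refine Finset.sum_congr rfl fun s _ => Finset.sum_congr rfl fun u _ => ?_
  rw [Finset.sum_eq_single q]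
  · simp [mul_comm]
  · intro s _ hs; simp [hs]
  · simp

end sums

lemma mulVec_MA (x x' y y' : ℂ) (G : Fin 3 → Fin 3 → Fin 3 → ℂ) (h : CondA x x' y y' G) :
    MA x x' y y' *ᵥ (fun c : B3 => G c.1 c.2.1 c.2.2) = 0 := by
  obtain ⟨h1, h2, h3⟩ := h
  funext ⟨p, t, q⟩
  simp only [Matrix.mulVec, dotProduct, Fintype.sum_prod_type, MA, Pi.zero_apply]
  fin_cases p
  · simp only [Fin.zero_eta, if_true, Fin.isValue]
    rw [sum_ite_fst q (fun u v => (dl u t + y') * (dl v t + y' * w3 v)) G]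
    simpa [mul_assoc] using h1 q t
  · simp only [Fin.mk_one, Fin.isValue, one_ne_zero, if_false, if_true]
    rw [sum_ite_snd q (fun s v => (dl s t + x') * (dl v t + y * w3 v)) G]
    simpa [mul_assoc] using h2 q t
  · simp only [Fin.reduceFinMk, Fin.isValue, Fin.reduceEq, if_false]
    rw [sum_ite_trd q (fun s u => (dl s t + x) * (dl u t + y)) G]
    simpa [mul_assoc] using h3 q t

lemma condA_of_mulVec (x x' y y' : ℂ) (g : B3 → ℂ) (h : MA x x' y y' *ᵥ g = 0) :
    CondA x x' y y' (fun s u v => g (s, u, v)) := by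
  have key : ∀ p t q, ∑ s, ∑ u, ∑ v, MA x x' y y' (p, t, q) (s, u, v) * g (s, u, v) = 0 := by
    intro p t q
    have := congrFun h (p, t, q)
    simpa [Matrix.mulVec, dotProduct, Fintype.sum_prod_type] using this
  refine ⟨fun s t => ?_, fun u t => ?_, fun v t => ?_⟩
  · have := key 0 t s
    simp only [MA, Fin.isValue, if_true] at this
    rw [sum_ite_fst s (fun u v => (dl u t + y') * (dl v t + y' * w3 v))
      (fun s u v => g (s, u, v))] at this
    simpa [mul_assoc] using this
  · have := key 1 t u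
    simp only [MA, Fin.isValue, one_ne_zero, if_false, if_true] at this
    rw [sum_ite_snd u (fun s v => (dl s t + x') * (dl v t + y * w3 v))
      (fun s u v => g (s, u, v))] at this
    simpa [mul_assoc] using this
  · have := key 2 t v
    simp only [MA, Fin.isValue, Fin.reduceEq, if_false] at this
    rw [sum_ite_trd v (fun s u => (dl s t + x) * (dl u t + y))
      (fun s u v => g (s, u, v))] at this
    simpa [mul_assoc] using this

lemma det_MA_special : (MA (0 : ℂ) (-1) 0 1).det ≠ 0 := by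
  intro h0
  obtain ⟨g, hg, hMg⟩ := Matrix.exists_mulVec_eq_zero_iff.2 h0
  apply hg
  have := condA_special _ (condA_of_mulVec _ _ _ _ g hMg)
  funext ⟨s, u, v⟩
  exact this s u v

lemma condA_of_det {x x' y y' : ℂ} (hdet : (MA x x' y y').det ≠ 0)
    (G : Fin 3 → Fin 3 → Fin 3 → ℂ) (h : CondA x x' y y' G) : ∀ s u v, G s u v = 0 := by
  have := Matrix.eq_zero_of_mulVec_eq_zero hdet (mulVec_MA x x' y y' G h)
  intro s u v
  exact congrFun this (s, u, v)

lemma mulVec_MB (x y : ℂ) (G : Fin 3 → Fin 3 → Fin 3 → ℂ) (h : CondB x y G) :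
    MB x y *ᵥ (fun c : B3 => G c.1 c.2.1 c.2.2) = 0 := by
  obtain ⟨h1, h2, h3, h4, h5⟩ := h
  funext ⟨p, t, q⟩
  simp only [Matrix.mulVec, dotProduct, Fintype.sum_prod_type, MB, Pi.zero_apply]
  fin_cases p
  · simp only [Fin.zero_eta, if_true, Fin.isValue]
    rw [sum_ite_fst q (fun u v => (dl u t + y) * (dl v t + y * w3 v)) G]
    simpa [mul_assoc] using h1 q t
  · simp only [Fin.mk_one, Fin.isValue, one_ne_zero, if_false, if_true]
    by_cases hqt : q = t
    · simp only [hqt, if_true]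
      rw [sum_ite_fst t (fun _ _ => (1 : ℂ)) G]
      simpa using h4 t
    · simp only [hqt, if_false]
      rw [sum_ite_snd q (fun s v => (dl s t + x) * (dl v t + y * w3 v)) G]
      simpa [mul_assoc] using h2 q t
  · simp only [Fin.reduceFinMk, Fin.isValue, Fin.reduceEq, if_false]
    by_cases hqt : q = t
    · simp only [hqt, if_true]
      rw [sum_ite_fst t (fun u _ => ((u : ℕ) : ℂ)) G]
      simpa using h5 t
    · simp only [hqt, if_false]
      rw [sum_ite_trd q (fun s u => (dl s t + x) * (dl u t + y)) G]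
      simpa [mul_assoc] using h3 q t

lemma condB_of_mulVec (x y : ℂ) (g : B3 → ℂ) (h : MB x y *ᵥ g = 0) :
    CondB' x y (fun s u v => g (s, u, v)) := by
  have key : ∀ p t q, ∑ s, ∑ u, ∑ v, MB x y (p, t, q) (s, u, v) * g (s, u, v) = 0 := by
    intro p t q
    have := congrFun h (p, t, q)
    simpa [Matrix.mulVec, dotProduct, Fintype.sum_prod_type] using this
  refine ⟨fun s t => ?_, fun u t hut => ?_, fun v t hvt => ?_, fun s => ?_, fun s => ?_⟩
  · have := key 0 t s
    simp only [MB, Fin.isValue, if_true] at this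
    rw [sum_ite_fst s (fun u v => (dl u t + y) * (dl v t + y * w3 v))
      (fun s u v => g (s, u, v))] at this
    simpa [mul_assoc] using this
  · have := key 1 t u
    simp only [MB, Fin.isValue, one_ne_zero, if_false, if_true, hut] at this
    rw [sum_ite_snd u (fun s v => (dl s t + x) * (dl v t + y * w3 v))
      (fun s u v => g (s, u, v))] at this
    simpa [mul_assoc] using this
  · have := key 2 t v
    simp only [MB, Fin.isValue, Fin.reduceEq, if_false, hvt] at this
    rw [sum_ite_trd v (fun s u => (dl s t + x) * (dl u t + y))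
      (fun s u v => g (s, u, v))] at this
    simpa [mul_assoc] using this
  · have := key 1 s s
    simp only [MB, Fin.isValue, one_ne_zero, if_false, if_true] at this
    rw [sum_ite_fst s (fun _ _ => (1 : ℂ)) (fun s u v => g (s, u, v))] at this
    simpa using this
  · have := key 2 s s
    simp only [MB, Fin.isValue, Fin.reduceEq, if_false, if_true] at this
    rw [sum_ite_fst s (fun u _ => ((u : ℕ) : ℂ)) (fun s u v => g (s, u, v))] at this
    simpa using this

lemma det_MB_special : (MB (0 : ℂ) 0).det ≠ 0 := by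
  intro h0
  obtain ⟨g, hg, hMg⟩ := Matrix.exists_mulVec_eq_zero_iff.2 h0
  apply hg
  have := condB_special _ (condB_of_mulVec _ _ g hMg)
  funext ⟨s, u, v⟩
  exact this s u v

lemma condB_of_det {x y : ℂ} (hdet : (MB x y).det ≠ 0)
    (G : Fin 3 → Fin 3 → Fin 3 → ℂ) (h : CondB x y G) : ∀ s u v, G s u v = 0 := by
  have := Matrix.eq_zero_of_mulVec_eq_zero hdet (mulVec_MB x y G h)
  intro s u v
  exact congrFun this (s, u, v)

/-- Finitely many nonzero complex polynomials are nonzero at a common point. -/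
lemma exists_common_nonzero {σ ι : Type} (s : Finset ι) (P : ι → MvPolynomial σ ℂ)
    (hP : ∀ i ∈ s, P i ≠ 0) : ∃ z : σ → ℂ, ∀ i ∈ s, MvPolynomial.eval z (P i) ≠ 0 := by
  have hprod : ∏ i ∈ s, P i ≠ 0 := Finset.prod_ne_zero_iff.2 hP
  by_contra hcon
  push Not at hcon
  apply hprod
  apply MvPolynomial.funext
  intro z
  obtain ⟨i, hi, hiz⟩ := hcon z
  rw [map_zero, map_prod]
  exact Finset.prod_eq_zero hi hiz

/-- The variable `x j`. -/
noncomputable def Xv {k : ℕ} (j : ZMod k) : MvPolynomial (ZMod k ⊕ ZMod k) ℂ :=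
  MvPolynomial.X (Sum.inl j)

/-- The variable `y i`. -/
noncomputable def Yv {k : ℕ} (i : ZMod k) : MvPolynomial (ZMod k ⊕ ZMod k) ℂ :=
  MvPolynomial.X (Sum.inr i)

/-- The determinant polynomials of the systems `CondA`. -/
noncomputable def PA {k : ℕ} (q : ZMod k × ZMod k × ZMod k × ZMod k) :
    MvPolynomial (ZMod k ⊕ ZMod k) ℂ :=
  (MA (Xv q.2.1) (Xv q.2.2.2) (Yv q.1) (Yv q.2.2.1)).det

/-- The determinant polynomials of the systems `CondB`. -/
noncomputable def PB {k : ℕ} (q : ZMod k × ZMod k) : MvPolynomial (ZMod k ⊕ ZMod k) ℂ :=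
  (MB (Xv q.2) (Yv q.1)).det

lemma eval_PA {k : ℕ} (z : ZMod k ⊕ ZMod k → ℂ) (q : ZMod k × ZMod k × ZMod k × ZMod k) :
    MvPolynomial.eval z (PA q) = (MA (z (Sum.inl q.2.1)) (z (Sum.inl q.2.2.2))
      (z (Sum.inr q.1)) (z (Sum.inr q.2.2.1))).det := by
  unfold PA
  rw [RingHom.map_det, map_MA]
  unfold Xv Yv
  simp only [MvPolynomial.eval_X]

lemma eval_PB {k : ℕ} (z : ZMod k ⊕ ZMod k → ℂ) (q : ZMod k × ZMod k) :
    MvPolynomial.eval z (PB q) = (MB (z (Sum.inl q.2)) (z (Sum.inr q.1))).det := by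
  unfold PB
  rw [RingHom.map_det, map_MB]
  unfold Xv Yv
  simp only [MvPolynomial.eval_X]

lemma PA_ne_zero {k : ℕ} (q : ZMod k × ZMod k × ZMod k × ZMod k) (hi : q.1 ≠ q.2.2.1)
    (hj : q.2.1 ≠ q.2.2.2) : PA q ≠ 0 := by
  classical
  intro h0
  have h1 := eval_PA (Sum.elim (fun m => if m = q.2.1 then (0 : ℂ) else -1)
          (fun m => if m = q.1 then (0 : ℂ) else 1)) q
  rw [h0, map_zero] at h1
  simp only [Sum.elim_inl, Sum.elim_inr, if_true, if_neg hi.symm, if_neg hj.symm] at h1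
  exact det_MA_special h1.symm

lemma PB_ne_zero {k : ℕ} (q : ZMod k × ZMod k) : PB q ≠ 0 := by
  intro h0
  have h1 := eval_PB (fun _ => (0 : ℂ)) q
  rw [h0, map_zero] at h1
  exact det_MB_special h1.symm

/-- Existence of parameters making all the local systems nonsingular. -/
theorem exists_generic (k : ℕ) [NeZero k] : ∃ x y : ZMod k → ℂ,
    (∀ i j i' j' : ZMod k, i ≠ i' → j ≠ j' → (MA (x j) (x j') (y i) (y i')).det ≠ 0) ∧
    (∀ i j : ZMod k, (MB (x j) (y i)).det ≠ 0) := by
  classical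
  have hP : ∀ q ∈ (Finset.univ : Finset ((ZMod k × ZMod k × ZMod k × ZMod k) ⊕ (ZMod k × ZMod k))),
      Sum.elim (fun q : ZMod k × ZMod k × ZMod k × ZMod k =>
        if q.1 ≠ q.2.2.1 ∧ q.2.1 ≠ q.2.2.2 then PA q else 1) (fun q => PB q) q ≠ 0 := by
    rintro (q | q) -
    · rw [Sum.elim_inl]
      split_ifs with h
      · exact PA_ne_zero q h.1 h.2
      · exact one_ne_zero
    · rw [Sum.elim_inr]
      exact PB_ne_zero q
  obtain ⟨z, hz⟩ := exists_common_nonzero Finset.univ _ hP
  refine ⟨fun j => z (Sum.inl j), fun i => z (Sum.inr i), ?_, ?_⟩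
  · intro i j i' j' hi hj
    have h1 := hz (Sum.inl (i, j, i', j')) (Finset.mem_univ _)
    rw [Sum.elim_inl, if_pos ⟨hi, hj⟩, eval_PA] at h1
    exact h1
  · intro i j
    have h1 := hz (Sum.inr (i, j)) (Finset.mem_univ _)
    rw [Sum.elim_inr, eval_PB] at h1
    exact h1

end Pool.Agent.MaxRank
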