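import Pool.Agent.MaxRank.Basic

set_option autoImplicit false
set_option linter.unusedSimpArgs false

/-!
The local `3 × 3 × 3` linear algebra behind the configuration of rank-one arrays, and the choice of
generic parameters.
-/

namespace Pool.Agent.MaxRank

open Finset Matrix

/-- Kronecker delta on `Fin 3`. -/
def dl {R : Type} [CommRing R] (a b : Fin 3) : R := if a = b then 1 else 0

/-- The vector `(-2, -1, 1)`. -/
def w3 {R : Type} [CommRing R] (v : Fin 3) : R := if v = 0 then -2 else if v = 1 then -1 else 1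


section vals
variable {R : Type} [CommRing R]
lemma dl00 : (dl 0 0 : R) = 1 := if_pos rfl
lemma dl11 : (dl 1 1 : R) = 1 := if_pos rfl
lemma dl22 : (dl 2 2 : R) = 1 := if_pos rfl
lemma dl01 : (dl 0 1 : R) = 0 := if_neg (by decide)
lemma dl02 : (dl 0 2 : R) = 0 := if_neg (by decide)
lemma dl10 : (dl 1 0 : R) = 0 := if_neg (by decide)
lemma dl12 : (dl 1 2 : R) = 0 := if_neg (by decide)
lemma dl20 : (dl 2 0 : R) = 0 := if_neg (by decide)
lemma dl21 : (dl 2 1 : R) = 0 := if_neg (by decide)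
lemma w30 : (w3 0 : R) = -2 := if_pos rfl
lemma w31 : (w3 1 : R) = -1 := by rw [w3, if_neg (by decide), if_pos rfl]
lemma w32 : (w3 2 : R) = 1 := by rw [w3, if_neg (by decide), if_neg (by decide)]
end vals

/-- Local equations for a block that meets no point of the configuration. -/
def CondA (x x' y y' : ℂ) (G : Fin 3 → Fin 3 → Fin 3 → ℂ) : Prop :=
  (∀ s t, ∑ u, ∑ v, G s u v * (dl u t + y') * (dl v t + y' * w3 v) = 0) ∧
  (∀ u t, ∑ s, ∑ v, G s u v * (dl s t + x') * (dl v t + y * w3 v) = 0) ∧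
  (∀ v t, ∑ s, ∑ u, G s u v * (dl s t + x) * (dl u t + y) = 0)

/-- The local equations of a block meeting three points that are used in the argument. -/
def CondB' (x y : ℂ) (G : Fin 3 → Fin 3 → Fin 3 → ℂ) : Prop :=
  (∀ s t, ∑ u, ∑ v, G s u v * (dl u t + y) * (dl v t + y * w3 v) = 0) ∧
  (∀ u t, u ≠ t → ∑ s, ∑ v, G s u v * (dl s t + x) * (dl v t + y * w3 v) = 0) ∧
  (∀ v t, v ≠ t → ∑ s, ∑ u, G s u v * (dl s t + x) * (dl u t + y) = 0) ∧
  (∀ s, ∑ u, ∑ v, G s u v = 0) ∧
  (∀ s, ∑ u, ∑ v, G s u v * ((u : ℕ) : ℂ) = 0)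

/-- Local equations for a block that meets three points of the configuration. -/
def CondB (x y : ℂ) (G : Fin 3 → Fin 3 → Fin 3 → ℂ) : Prop :=
  (∀ s t, ∑ u, ∑ v, G s u v * (dl u t + y) * (dl v t + y * w3 v) = 0) ∧
  (∀ u t, ∑ s, ∑ v, G s u v * (dl s t + x) * (dl v t + y * w3 v) = 0) ∧
  (∀ v t, ∑ s, ∑ u, G s u v * (dl s t + x) * (dl u t + y) = 0) ∧
  (∀ s, ∑ u, ∑ v, G s u v = 0) ∧
  (∀ s, ∑ u, ∑ v, G s u v * ((u : ℕ) : ℂ) = 0)

lemma condA_special (G : Fin 3 → Fin 3 → Fin 3 → ℂ) (h : CondA 0 (-1) 0 1 G) :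
    ∀ s u v, G s u v = 0 := by
  obtain ⟨h1, h2, h3⟩ := h
  have e000 : (-2) * G 0 0 0 + (-2) * G 0 0 1 + 2 * G 0 0 2 + (-1) * G 0 1 0 + (-1) * G 0 1 1 + 1 * G 0 1 2 + (-1) * G 0 2 0 + (-1) * G 0 2 1 + 1 * G 0 2 2 = 0 := by
    have := h1 0 0
    simp only [Fin.sum_univ_three, dl00, dl01, dl02, dl10, dl11, dl12, dl20, dl21, dl22, w30, w31, w32, Fin.val_zero, Fin.val_one, Fin.val_two, Nat.cast_zero, Nat.cast_one, Nat.cast_ofNat] at this
    linear_combination this
  have e001 : (-2) * G 1 0 0 + (-2) * G 1 0 1 + 2 * G 1 0 2 + (-1) * G 1 1 0 + (-1) * G 1 1 1 + 1 * G 1 1 2 + (-1) * G 1 2 0 + (-1) * G 1 2 1 + 1 * G 1 2 2 = 0 := by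
    have := h1 1 0
    simp only [Fin.sum_univ_three, dl00, dl01, dl02, dl10, dl11, dl12, dl20, dl21, dl22, w30, w31, w32, Fin.val_zero, Fin.val_one, Fin.val_two, Nat.cast_zero, Nat.cast_one, Nat.cast_ofNat] at this
    linear_combination this
  have e002 : (-2) * G 2 0 0 + (-2) * G 2 0 1 + 2 * G 2 0 2 + (-1) * G 2 1 0 + (-1) * G 2 1 1 + 1 * G 2 1 2 + (-1) * G 2 2 0 + (-1) * G 2 2 1 + 1 * G 2 2 2 = 0 := by
    have := h1 2 0
    simp only [Fin.sum_univ_three, dl00, dl01, dl02, dl10, dl11, dl12, dl20, dl21, dl22, w30, w31, w32, Fin.val_zero, Fin.val_one, Fin.val_two, Nat.cast_zero, Nat.cast_one, Nat.cast_ofNat] at this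
    linear_combination this
  have e010 : (-2) * G 0 0 0 + 1 * G 0 0 2 + (-4) * G 0 1 0 + 2 * G 0 1 2 + (-2) * G 0 2 0 + 1 * G 0 2 2 = 0 := by
    have := h1 0 1
    simp only [Fin.sum_univ_three, dl00, dl01, dl02, dl10, dl11, dl12, dl20, dl21, dl22, w30, w31, w32, Fin.val_zero, Fin.val_one, Fin.val_two, Nat.cast_zero, Nat.cast_one, Nat.cast_ofNat] at this
    linear_combination this
  have e011 : (-2) * G 1 0 0 + 1 * G 1 0 2 + (-4) * G 1 1 0 + 2 * G 1 1 2 + (-2) * G 1 2 0 + 1 * G 1 2 2 = 0 := by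
    have := h1 1 1
    simp only [Fin.sum_univ_three, dl00, dl01, dl02, dl10, dl11, dl12, dl20, dl21, dl22, w30, w31, w32, Fin.val_zero, Fin.val_one, Fin.val_two, Nat.cast_zero, Nat.cast_one, Nat.cast_ofNat] at this
    linear_combination this
  have e012 : (-2) * G 2 0 0 + 1 * G 2 0 2 + (-4) * G 2 1 0 + 2 * G 2 1 2 + (-2) * G 2 2 0 + 1 * G 2 2 2 = 0 := by
    have := h1 2 1
    simp only [Fin.sum_univ_three, dl00, dl01, dl02, dl10, dl11, dl12, dl20, dl21, dl22, w30, w31, w32, Fin.val_zero, Fin.val_one, Fin.val_two, Nat.cast_zero, Nat.cast_one, Nat.cast_ofNat] at this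
    linear_combination this
  have e020 : (-2) * G 0 0 0 + (-1) * G 0 0 1 + 2 * G 0 0 2 + (-2) * G 0 1 0 + (-1) * G 0 1 1 + 2 * G 0 1 2 + (-4) * G 0 2 0 + (-2) * G 0 2 1 + 4 * G 0 2 2 = 0 := by
    have := h1 0 2
    simp only [Fin.sum_univ_three, dl00, dl01, dl02, dl10, dl11, dl12, dl20, dl21, dl22, w30, w31, w32, Fin.val_zero, Fin.val_one, Fin.val_two, Nat.cast_zero, Nat.cast_one, Nat.cast_ofNat] at this
    linear_combination this
  have e021 : (-2) * G 1 0 0 + (-1) * G 1 0 1 + 2 * G 1 0 2 + (-2) * G 1 1 0 + (-1) * G 1 1 1 + 2 * G 1 1 2 + (-4) * G 1 2 0 + (-2) * G 1 2 1 + 4 * G 1 2 2 = 0 := by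
    have := h1 1 2
    simp only [Fin.sum_univ_three, dl00, dl01, dl02, dl10, dl11, dl12, dl20, dl21, dl22, w30, w31, w32, Fin.val_zero, Fin.val_one, Fin.val_two, Nat.cast_zero, Nat.cast_one, Nat.cast_ofNat] at this
    linear_combination this
  have e022 : (-2) * G 2 0 0 + (-1) * G 2 0 1 + 2 * G 2 0 2 + (-2) * G 2 1 0 + (-1) * G 2 1 1 + 2 * G 2 1 2 + (-4) * G 2 2 0 + (-2) * G 2 2 1 + 4 * G 2 2 2 = 0 := by
    have := h1 2 2
    simp only [Fin.sum_univ_three, dl00, dl01, dl02, dl10, dl11, dl12, dl20, dl21, dl22, w30, w31, w32, Fin.val_zero, Fin.val_one, Fin.val_two, Nat.cast_zero, Nat.cast_one, Nat.cast_ofNat] at this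
    linear_combination this
  have e100 : (-1) * G 1 0 0 + (-1) * G 2 0 0 = 0 := by
    have := h2 0 0
    simp only [Fin.sum_univ_three, dl00, dl01, dl02, dl10, dl11, dl12, dl20, dl21, dl22, w30, w31, w32, Fin.val_zero, Fin.val_one, Fin.val_two, Nat.cast_zero, Nat.cast_one, Nat.cast_ofNat] at this
    linear_combination this
  have e101 : (-1) * G 1 1 0 + (-1) * G 2 1 0 = 0 := by
    have := h2 1 0
    simp only [Fin.sum_univ_three, dl00, dl01, dl02, dl10, dl11, dl12, dl20, dl21, dl22, w30, w31, w32, Fin.val_zero, Fin.val_one, Fin.val_two, Nat.cast_zero, Nat.cast_one, Nat.cast_ofNat] at this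
    linear_combination this
  have e102 : (-1) * G 1 2 0 + (-1) * G 2 2 0 = 0 := by
    have := h2 2 0
    simp only [Fin.sum_univ_three, dl00, dl01, dl02, dl10, dl11, dl12, dl20, dl21, dl22, w30, w31, w32, Fin.val_zero, Fin.val_one, Fin.val_two, Nat.cast_zero, Nat.cast_one, Nat.cast_ofNat] at this
    linear_combination this
  have e110 : (-1) * G 0 0 1 + (-1) * G 2 0 1 = 0 := by
    have := h2 0 1
    simp only [Fin.sum_univ_three, dl00, dl01, dl02, dl10, dl11, dl12, dl20, dl21, dl22, w30, w31, w32, Fin.val_zero, Fin.val_one, Fin.val_two, Nat.cast_zero, Nat.cast_one, Nat.cast_ofNat] at this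
    linear_combination this
  have e111 : (-1) * G 0 1 1 + (-1) * G 2 1 1 = 0 := by
    have := h2 1 1
    simp only [Fin.sum_univ_three, dl00, dl01, dl02, dl10, dl11, dl12, dl20, dl21, dl22, w30, w31, w32, Fin.val_zero, Fin.val_one, Fin.val_two, Nat.cast_zero, Nat.cast_one, Nat.cast_ofNat] at this
    linear_combination this
  have e112 : (-1) * G 0 2 1 + (-1) * G 2 2 1 = 0 := by
    have := h2 2 1
    simp only [Fin.sum_univ_three, dl00, dl01, dl02, dl10, dl11, dl12, dl20, dl21, dl22, w30, w31, w32, Fin.val_zero, Fin.val_one, Fin.val_two, Nat.cast_zero, Nat.cast_one, Nat.cast_ofNat] at this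
    linear_combination this
  have e120 : (-1) * G 0 0 2 + (-1) * G 1 0 2 = 0 := by
    have := h2 0 2
    simp only [Fin.sum_univ_three, dl00, dl01, dl02, dl10, dl11, dl12, dl20, dl21, dl22, w30, w31, w32, Fin.val_zero, Fin.val_one, Fin.val_two, Nat.cast_zero, Nat.cast_one, Nat.cast_ofNat] at this
    linear_combination this
  have e121 : (-1) * G 0 1 2 + (-1) * G 1 1 2 = 0 := by
    have := h2 1 2
    simp only [Fin.sum_univ_three, dl00, dl01, dl02, dl10, dl11, dl12, dl20, dl21, dl22, w30, w31, w32, Fin.val_zero, Fin.val_one, Fin.val_two, Nat.cast_zero, Nat.cast_one, Nat.cast_ofNat] at this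
    linear_combination this
  have e122 : (-1) * G 0 2 2 + (-1) * G 1 2 2 = 0 := by
    have := h2 2 2
    simp only [Fin.sum_univ_three, dl00, dl01, dl02, dl10, dl11, dl12, dl20, dl21, dl22, w30, w31, w32, Fin.val_zero, Fin.val_one, Fin.val_two, Nat.cast_zero, Nat.cast_one, Nat.cast_ofNat] at this
    linear_combination this
  have e200 : 1 * G 0 0 0 = 0 := by
    have := h3 0 0
    simp only [Fin.sum_univ_three, dl00, dl01, dl02, dl10, dl11, dl12, dl20, dl21, dl22, w30, w31, w32, Fin.val_zero, Fin.val_one, Fin.val_two, Nat.cast_zero, Nat.cast_one, Nat.cast_ofNat] at this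
    linear_combination this
  have e201 : 1 * G 0 0 1 = 0 := by
    have := h3 1 0
    simp only [Fin.sum_univ_three, dl00, dl01, dl02, dl10, dl11, dl12, dl20, dl21, dl22, w30, w31, w32, Fin.val_zero, Fin.val_one, Fin.val_two, Nat.cast_zero, Nat.cast_one, Nat.cast_ofNat] at this
    linear_combination this
  have e202 : 1 * G 0 0 2 = 0 := by
    have := h3 2 0
    simp only [Fin.sum_univ_three, dl00, dl01, dl02, dl10, dl11, dl12, dl20, dl21, dl22, w30, w31, w32, Fin.val_zero, Fin.val_one, Fin.val_two, Nat.cast_zero, Nat.cast_one, Nat.cast_ofNat] at this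
    linear_combination this
  have e210 : 1 * G 1 1 0 = 0 := by
    have := h3 0 1
    simp only [Fin.sum_univ_three, dl00, dl01, dl02, dl10, dl11, dl12, dl20, dl21, dl22, w30, w31, w32, Fin.val_zero, Fin.val_one, Fin.val_two, Nat.cast_zero, Nat.cast_one, Nat.cast_ofNat] at this
    linear_combination this
  have e211 : 1 * G 1 1 1 = 0 := by
    have := h3 1 1
    simp only [Fin.sum_univ_three, dl00, dl01, dl02, dl10, dl11, dl12, dl20, dl21, dl22, w30, w31, w32, Fin.val_zero, Fin.val_one, Fin.val_two, Nat.cast_zero, Nat.cast_one, Nat.cast_ofNat] at this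
    linear_combination this
  have e212 : 1 * G 1 1 2 = 0 := by
    have := h3 2 1
    simp only [Fin.sum_univ_three, dl00, dl01, dl02, dl10, dl11, dl12, dl20, dl21, dl22, w30, w31, w32, Fin.val_zero, Fin.val_one, Fin.val_two, Nat.cast_zero, Nat.cast_one, Nat.cast_ofNat] at this
    linear_combination this
  have e220 : 1 * G 2 2 0 = 0 := by
    have := h3 0 2
    simp only [Fin.sum_univ_three, dl00, dl01, dl02, dl10, dl11, dl12, dl20, dl21, dl22, w30, w31, w32, Fin.val_zero, Fin.val_one, Fin.val_two, Nat.cast_zero, Nat.cast_one, Nat.cast_ofNat] at this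
    linear_combination this
  have e221 : 1 * G 2 2 1 = 0 := by
    have := h3 1 2
    simp only [Fin.sum_univ_three, dl00, dl01, dl02, dl10, dl11, dl12, dl20, dl21, dl22, w30, w31, w32, Fin.val_zero, Fin.val_one, Fin.val_two, Nat.cast_zero, Nat.cast_one, Nat.cast_ofNat] at this
    linear_combination this
  have e222 : 1 * G 2 2 2 = 0 := by
    have := h3 2 2
    simp only [Fin.sum_univ_three, dl00, dl01, dl02, dl10, dl11, dl12, dl20, dl21, dl22, w30, w31, w32, Fin.val_zero, Fin.val_one, Fin.val_two, Nat.cast_zero, Nat.cast_one, Nat.cast_ofNat] at this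
    linear_combination this
  have g000 : G 0 0 0 = 0 := by linear_combination 1 * e200
  have g001 : G 0 0 1 = 0 := by linear_combination 1 * e201
  have g002 : G 0 0 2 = 0 := by linear_combination 1 * e202
  have g010 : G 0 1 0 = 0 := by linear_combination (-1/2) * e000 + (1/2) * e002 + (-1/4) * e010 + (1/4) * e011 + (1/2) * e012 + (1/4) * e020 + (-3/4) * e022 + (-1/2) * e100 + (-1) * e101 + (-1/2) * e102 + (-1/4) * e110 + (1/4) * e111 + (1/4) * e120 + (-1/2) * e121 + (1/4) * e122 + (-1) * e200 + (-1) * e201 + 1 * e202 + (-1) * e212 + (-2) * e220 + (-1) * e221 + 2 * e222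
  have g011 : G 0 1 1 = 0 := by linear_combination (-1) * e000 + (-1/3) * e002 + (1/6) * e010 + (-1/6) * e011 + (-1/3) * e012 + (1/6) * e020 + (1/2) * e022 + (1/3) * e100 + (2/3) * e101 + (1/3) * e102 + (1/6) * e110 + (-1/6) * e111 + (2/3) * e112 + (-1/6) * e120 + (-1/3) * e121 + (-1/6) * e122 + (-4/3) * e200 + (-5/3) * e201 + (4/3) * e202 + (4/3) * e220 + (4/3) * e221 + (-4/3) * e222
  have g012 : G 0 1 2 = 0 := by linear_combination (-1) * e121 + (-1) * e212
  have g020 : G 0 2 0 = 0 := by linear_combination (3/2) * e000 + (-11/6) * e002 + (-1/12) * e010 + (-11/12) * e011 + (-11/6) * e012 + (-7/12) * e020 + (11/4) * e022 + (11/6) * e100 + (11/3) * e101 + (11/6) * e102 + (11/12) * e110 + (-11/12) * e111 + (-1/3) * e112 + (-11/12) * e120 + (1/6) * e121 + (-11/12) * e122 + (5/3) * e200 + (10/3) * e201 + (-8/3) * e202 + 2 * e212 + (22/3) * e220 + (10/3) * e221 + (-22/3) * e222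
  have g021 : G 0 2 1 = 0 := by linear_combination (-1) * e112 + (-1) * e221
  have g022 : G 0 2 2 = 0 := by linear_combination 1 * e000 + (-5/3) * e002 + (-1/6) * e010 + (-5/6) * e011 + (-5/3) * e012 + (-1/6) * e020 + (5/2) * e022 + (5/3) * e100 + (10/3) * e101 + (5/3) * e102 + (5/6) * e110 + (-5/6) * e111 + (-2/3) * e112 + (-5/6) * e120 + (1/3) * e121 + (-5/6) * e122 + (4/3) * e200 + (8/3) * e201 + (-7/3) * e202 + 2 * e212 + (20/3) * e220 + (8/3) * e221 + (-20/3) * e222
  have g100 : G 1 0 0 = 0 := by linear_combination (-1/2) * e000 + (5/6) * e002 + (1/12) * e010 + (-1/12) * e011 + (5/6) * e012 + (1/12) * e020 + (-5/4) * e022 + (-5/6) * e100 + (-5/3) * e101 + (1/6) * e102 + (-5/12) * e110 + (5/12) * e111 + (1/3) * e112 + (-1/12) * e120 + (-1/6) * e121 + (-1/12) * e122 + (-2/3) * e200 + (-4/3) * e201 + (2/3) * e202 + (-2) * e210 + (-7/3) * e220 + (-4/3) * e221 + (10/3) * e222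
  have g101 : G 1 0 1 = 0 := by linear_combination 1 * e000 + (-2/3) * e001 + (-5/3) * e002 + (-1/6) * e010 + (-1/2) * e011 + (-5/3) * e012 + (-1/6) * e020 + (1/3) * e021 + (5/2) * e022 + (5/3) * e100 + (10/3) * e101 + (1/3) * e102 + (5/6) * e110 + (-5/6) * e111 + (-2/3) * e112 + (-7/6) * e120 + (1/3) * e121 + (1/6) * e122 + (4/3) * e200 + (8/3) * e201 + (-8/3) * e202 + (4/3) * e210 + (-1/3) * e211 + (4/3) * e212 + (16/3) * e220 + (8/3) * e221 + (-20/3) * e222
  have g102 : G 1 0 2 = 0 := by linear_combination (-1) * e120 + (-1) * e202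
  have g110 : G 1 1 0 = 0 := by linear_combination 1 * e210
  have g111 : G 1 1 1 = 0 := by linear_combination 1 * e211
  have g112 : G 1 1 2 = 0 := by linear_combination 1 * e212
  have g120 : G 1 2 0 = 0 := by linear_combination (-1) * e102 + (-1) * e220
  have g121 : G 1 2 1 = 0 := by linear_combination (-2) * e000 + (1/3) * e001 + (10/3) * e002 + (1/3) * e010 + 2 * e011 + (10/3) * e012 + (1/3) * e020 + (-2/3) * e021 + (-5) * e022 + (-10/3) * e100 + (-20/3) * e101 + (-5/3) * e102 + (-5/3) * e110 + (5/3) * e111 + (4/3) * e112 + (4/3) * e120 + (-2/3) * e121 + (-1/3) * e122 + (-8/3) * e200 + (-16/3) * e201 + (13/3) * e202 + (1/3) * e210 + (-1/3) * e211 + (-11/3) * e212 + (-35/3) * e220 + (-16/3) * e221 + (40/3) * e222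
  have g122 : G 1 2 2 = 0 := by linear_combination (-1) * e000 + (5/3) * e002 + (1/6) * e010 + (5/6) * e011 + (5/3) * e012 + (1/6) * e020 + (-5/2) * e022 + (-5/3) * e100 + (-10/3) * e101 + (-5/3) * e102 + (-5/6) * e110 + (5/6) * e111 + (2/3) * e112 + (5/6) * e120 + (-1/3) * e121 + (-1/6) * e122 + (-4/3) * e200 + (-8/3) * e201 + (7/3) * e202 + (-2) * e212 + (-20/3) * e220 + (-8/3) * e221 + (20/3) * e222
  have g200 : G 2 0 0 = 0 := by linear_combination (1/2) * e000 + (-5/6) * e002 + (-1/12) * e010 + (1/12) * e011 + (-5/6) * e012 + (-1/12) * e020 + (5/4) * e022 + (-1/6) * e100 + (5/3) * e101 + (-1/6) * e102 + (5/12) * e110 + (-5/12) * e111 + (-1/3) * e112 + (1/12) * e120 + (1/6) * e121 + (1/12) * e122 + (2/3) * e200 + (4/3) * e201 + (-2/3) * e202 + 2 * e210 + (7/3) * e220 + (4/3) * e221 + (-10/3) * e222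
  have g201 : G 2 0 1 = 0 := by linear_combination (-1) * e110 + (-1) * e201
  have g202 : G 2 0 2 = 0 := by linear_combination 1 * e000 + (1/3) * e002 + (-1/6) * e010 + (1/6) * e011 + (-2/3) * e012 + (-1/6) * e020 + (1/2) * e022 + (-1/3) * e100 + (4/3) * e101 + (-1/3) * e102 + (-7/6) * e110 + (-5/6) * e111 + (-2/3) * e112 + (1/6) * e120 + (1/3) * e121 + (1/6) * e122 + (4/3) * e200 + (2/3) * e201 + (-4/3) * e202 + 2 * e210 + (2/3) * e220 + (2/3) * e221 + (-5/3) * e222
  have g210 : G 2 1 0 = 0 := by linear_combination (-1) * e101 + (-1) * e210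
  have g211 : G 2 1 1 = 0 := by linear_combination 1 * e000 + (1/3) * e002 + (-1/6) * e010 + (1/6) * e011 + (1/3) * e012 + (-1/6) * e020 + (-1/2) * e022 + (-1/3) * e100 + (-2/3) * e101 + (-1/3) * e102 + (-1/6) * e110 + (-5/6) * e111 + (-2/3) * e112 + (1/6) * e120 + (1/3) * e121 + (1/6) * e122 + (4/3) * e200 + (5/3) * e201 + (-4/3) * e202 + (-4/3) * e220 + (-4/3) * e221 + (4/3) * e222
  have g212 : G 2 1 2 = 0 := by linear_combination (-1) * e002 + 1 * e022 + (-1) * e101 + 1 * e110 + 1 * e201 + (-1) * e210 + 3 * e220 + 1 * e221 + (-3) * e222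
  have g220 : G 2 2 0 = 0 := by linear_combination 1 * e220
  have g221 : G 2 2 1 = 0 := by linear_combination 1 * e221
  have g222 : G 2 2 2 = 0 := by linear_combination 1 * e222
  intro s u v
  fin_cases s <;> fin_cases u <;> fin_cases v <;> assumption

lemma condB_special (G : Fin 3 → Fin 3 → Fin 3 → ℂ) (h : CondB' 0 0 G) :
    ∀ s u v, G s u v = 0 := by
  obtain ⟨h1, h2, h3, h4, h5⟩ := h
  have e000 : 1 * G 0 0 0 = 0 := by
    have := h1 0 0
    simp only [Fin.sum_univ_three, dl00, dl01, dl02, dl10, dl11, dl12, dl20, dl21, dl22, w30, w31, w32, Fin.val_zero, Fin.val_one, Fin.val_two, Nat.cast_zero, Nat.cast_one, Nat.cast_ofNat] at this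
    linear_combination this
  have e001 : 1 * G 1 0 0 = 0 := by
    have := h1 1 0
    simp only [Fin.sum_univ_three, dl00, dl01, dl02, dl10, dl11, dl12, dl20, dl21, dl22, w30, w31, w32, Fin.val_zero, Fin.val_one, Fin.val_two, Nat.cast_zero, Nat.cast_one, Nat.cast_ofNat] at this
    linear_combination this
  have e002 : 1 * G 2 0 0 = 0 := by
    have := h1 2 0
    simp only [Fin.sum_univ_three, dl00, dl01, dl02, dl10, dl11, dl12, dl20, dl21, dl22, w30, w31, w32, Fin.val_zero, Fin.val_one, Fin.val_two, Nat.cast_zero, Nat.cast_one, Nat.cast_ofNat] at this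
    linear_combination this
  have e010 : 1 * G 0 1 1 = 0 := by
    have := h1 0 1
    simp only [Fin.sum_univ_three, dl00, dl01, dl02, dl10, dl11, dl12, dl20, dl21, dl22, w30, w31, w32, Fin.val_zero, Fin.val_one, Fin.val_two, Nat.cast_zero, Nat.cast_one, Nat.cast_ofNat] at this
    linear_combination this
  have e011 : 1 * G 1 1 1 = 0 := by
    have := h1 1 1
    simp only [Fin.sum_univ_three, dl00, dl01, dl02, dl10, dl11, dl12, dl20, dl21, dl22, w30, w31, w32, Fin.val_zero, Fin.val_one, Fin.val_two, Nat.cast_zero, Nat.cast_one, Nat.cast_ofNat] at this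
    linear_combination this
  have e012 : 1 * G 2 1 1 = 0 := by
    have := h1 2 1
    simp only [Fin.sum_univ_three, dl00, dl01, dl02, dl10, dl11, dl12, dl20, dl21, dl22, w30, w31, w32, Fin.val_zero, Fin.val_one, Fin.val_two, Nat.cast_zero, Nat.cast_one, Nat.cast_ofNat] at this
    linear_combination this
  have e020 : 1 * G 0 2 2 = 0 := by
    have := h1 0 2
    simp only [Fin.sum_univ_three, dl00, dl01, dl02, dl10, dl11, dl12, dl20, dl21, dl22, w30, w31, w32, Fin.val_zero, Fin.val_one, Fin.val_two, Nat.cast_zero, Nat.cast_one, Nat.cast_ofNat] at this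
    linear_combination this
  have e021 : 1 * G 1 2 2 = 0 := by
    have := h1 1 2
    simp only [Fin.sum_univ_three, dl00, dl01, dl02, dl10, dl11, dl12, dl20, dl21, dl22, w30, w31, w32, Fin.val_zero, Fin.val_one, Fin.val_two, Nat.cast_zero, Nat.cast_one, Nat.cast_ofNat] at this
    linear_combination this
  have e022 : 1 * G 2 2 2 = 0 := by
    have := h1 2 2
    simp only [Fin.sum_univ_three, dl00, dl01, dl02, dl10, dl11, dl12, dl20, dl21, dl22, w30, w31, w32, Fin.val_zero, Fin.val_one, Fin.val_two, Nat.cast_zero, Nat.cast_one, Nat.cast_ofNat] at this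
    linear_combination this
  have e100 : 1 * G 0 0 0 + 1 * G 0 0 1 + 1 * G 0 0 2 + 1 * G 0 1 0 + 1 * G 0 1 1 + 1 * G 0 1 2 + 1 * G 0 2 0 + 1 * G 0 2 1 + 1 * G 0 2 2 = 0 := by
    have := h4 0
    simp only [Fin.sum_univ_three, dl00, dl01, dl02, dl10, dl11, dl12, dl20, dl21, dl22, w30, w31, w32, Fin.val_zero, Fin.val_one, Fin.val_two, Nat.cast_zero, Nat.cast_one, Nat.cast_ofNat] at this
    linear_combination this
  have e101 : 1 * G 0 1 0 = 0 := by
    have := h2 1 0 (by decide)
    simp only [Fin.sum_univ_three, dl00, dl01, dl02, dl10, dl11, dl12, dl20, dl21, dl22, w30, w31, w32, Fin.val_zero, Fin.val_one, Fin.val_two, Nat.cast_zero, Nat.cast_one, Nat.cast_ofNat] at this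
    linear_combination this
  have e102 : 1 * G 0 2 0 = 0 := by
    have := h2 2 0 (by decide)
    simp only [Fin.sum_univ_three, dl00, dl01, dl02, dl10, dl11, dl12, dl20, dl21, dl22, w30, w31, w32, Fin.val_zero, Fin.val_one, Fin.val_two, Nat.cast_zero, Nat.cast_one, Nat.cast_ofNat] at this
    linear_combination this
  have e110 : 1 * G 1 0 1 = 0 := by
    have := h2 0 1 (by decide)
    simp only [Fin.sum_univ_three, dl00, dl01, dl02, dl10, dl11, dl12, dl20, dl21, dl22, w30, w31, w32, Fin.val_zero, Fin.val_one, Fin.val_two, Nat.cast_zero, Nat.cast_one, Nat.cast_ofNat] at this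
    linear_combination this
  have e111 : 1 * G 1 0 0 + 1 * G 1 0 1 + 1 * G 1 0 2 + 1 * G 1 1 0 + 1 * G 1 1 1 + 1 * G 1 1 2 + 1 * G 1 2 0 + 1 * G 1 2 1 + 1 * G 1 2 2 = 0 := by
    have := h4 1
    simp only [Fin.sum_univ_three, dl00, dl01, dl02, dl10, dl11, dl12, dl20, dl21, dl22, w30, w31, w32, Fin.val_zero, Fin.val_one, Fin.val_two, Nat.cast_zero, Nat.cast_one, Nat.cast_ofNat] at this
    linear_combination this
  have e112 : 1 * G 1 2 1 = 0 := by
    have := h2 2 1 (by decide)
    simp only [Fin.sum_univ_three, dl00, dl01, dl02, dl10, dl11, dl12, dl20, dl21, dl22, w30, w31, w32, Fin.val_zero, Fin.val_one, Fin.val_two, Nat.cast_zero, Nat.cast_one, Nat.cast_ofNat] at this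
    linear_combination this
  have e120 : 1 * G 2 0 2 = 0 := by
    have := h2 0 2 (by decide)
    simp only [Fin.sum_univ_three, dl00, dl01, dl02, dl10, dl11, dl12, dl20, dl21, dl22, w30, w31, w32, Fin.val_zero, Fin.val_one, Fin.val_two, Nat.cast_zero, Nat.cast_one, Nat.cast_ofNat] at this
    linear_combination this
  have e121 : 1 * G 2 1 2 = 0 := by
    have := h2 1 2 (by decide)
    simp only [Fin.sum_univ_three, dl00, dl01, dl02, dl10, dl11, dl12, dl20, dl21, dl22, w30, w31, w32, Fin.val_zero, Fin.val_one, Fin.val_two, Nat.cast_zero, Nat.cast_one, Nat.cast_ofNat] at this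
    linear_combination this
  have e122 : 1 * G 2 0 0 + 1 * G 2 0 1 + 1 * G 2 0 2 + 1 * G 2 1 0 + 1 * G 2 1 1 + 1 * G 2 1 2 + 1 * G 2 2 0 + 1 * G 2 2 1 + 1 * G 2 2 2 = 0 := by
    have := h4 2
    simp only [Fin.sum_univ_three, dl00, dl01, dl02, dl10, dl11, dl12, dl20, dl21, dl22, w30, w31, w32, Fin.val_zero, Fin.val_one, Fin.val_two, Nat.cast_zero, Nat.cast_one, Nat.cast_ofNat] at this
    linear_combination this
  have e200 : 1 * G 0 1 0 + 1 * G 0 1 1 + 1 * G 0 1 2 + 2 * G 0 2 0 + 2 * G 0 2 1 + 2 * G 0 2 2 = 0 := by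
    have := h5 0
    simp only [Fin.sum_univ_three, dl00, dl01, dl02, dl10, dl11, dl12, dl20, dl21, dl22, w30, w31, w32, Fin.val_zero, Fin.val_one, Fin.val_two, Nat.cast_zero, Nat.cast_one, Nat.cast_ofNat] at this
    linear_combination this
  have e201 : 1 * G 0 0 1 = 0 := by
    have := h3 1 0 (by decide)
    simp only [Fin.sum_univ_three, dl00, dl01, dl02, dl10, dl11, dl12, dl20, dl21, dl22, w30, w31, w32, Fin.val_zero, Fin.val_one, Fin.val_two, Nat.cast_zero, Nat.cast_one, Nat.cast_ofNat] at this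
    linear_combination this
  have e202 : 1 * G 0 0 2 = 0 := by
    have := h3 2 0 (by decide)
    simp only [Fin.sum_univ_three, dl00, dl01, dl02, dl10, dl11, dl12, dl20, dl21, dl22, w30, w31, w32, Fin.val_zero, Fin.val_one, Fin.val_two, Nat.cast_zero, Nat.cast_one, Nat.cast_ofNat] at this
    linear_combination this
  have e210 : 1 * G 1 1 0 = 0 := by
    have := h3 0 1 (by decide)
    simp only [Fin.sum_univ_three, dl00, dl01, dl02, dl10, dl11, dl12, dl20, dl21, dl22, w30, w31, w32, Fin.val_zero, Fin.val_one, Fin.val_two, Nat.cast_zero, Nat.cast_one, Nat.cast_ofNat] at this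
    linear_combination this
  have e211 : 1 * G 1 1 0 + 1 * G 1 1 1 + 1 * G 1 1 2 + 2 * G 1 2 0 + 2 * G 1 2 1 + 2 * G 1 2 2 = 0 := by
    have := h5 1
    simp only [Fin.sum_univ_three, dl00, dl01, dl02, dl10, dl11, dl12, dl20, dl21, dl22, w30, w31, w32, Fin.val_zero, Fin.val_one, Fin.val_two, Nat.cast_zero, Nat.cast_one, Nat.cast_ofNat] at this
    linear_combination this
  have e212 : 1 * G 1 1 2 = 0 := by
    have := h3 2 1 (by decide)
    simp only [Fin.sum_univ_three, dl00, dl01, dl02, dl10, dl11, dl12, dl20, dl21, dl22, w30, w31, w32, Fin.val_zero, Fin.val_one, Fin.val_two, Nat.cast_zero, Nat.cast_one, Nat.cast_ofNat] at this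
    linear_combination this
  have e220 : 1 * G 2 2 0 = 0 := by
    have := h3 0 2 (by decide)
    simp only [Fin.sum_univ_three, dl00, dl01, dl02, dl10, dl11, dl12, dl20, dl21, dl22, w30, w31, w32, Fin.val_zero, Fin.val_one, Fin.val_two, Nat.cast_zero, Nat.cast_one, Nat.cast_ofNat] at this
    linear_combination this
  have e221 : 1 * G 2 2 1 = 0 := by
    have := h3 1 2 (by decide)
    simp only [Fin.sum_univ_three, dl00, dl01, dl02, dl10, dl11, dl12, dl20, dl21, dl22, w30, w31, w32, Fin.val_zero, Fin.val_one, Fin.val_two, Nat.cast_zero, Nat.cast_one, Nat.cast_ofNat] at this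
    linear_combination this
  have e222 : 1 * G 2 1 0 + 1 * G 2 1 1 + 1 * G 2 1 2 + 2 * G 2 2 0 + 2 * G 2 2 1 + 2 * G 2 2 2 = 0 := by
    have := h5 2
    simp only [Fin.sum_univ_three, dl00, dl01, dl02, dl10, dl11, dl12, dl20, dl21, dl22, w30, w31, w32, Fin.val_zero, Fin.val_one, Fin.val_two, Nat.cast_zero, Nat.cast_one, Nat.cast_ofNat] at this
    linear_combination this
  have g000 : G 0 0 0 = 0 := by linear_combination 1 * e000
  have g001 : G 0 0 1 = 0 := by linear_combination 1 * e201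
  have g002 : G 0 0 2 = 0 := by linear_combination 1 * e202
  have g010 : G 0 1 0 = 0 := by linear_combination 1 * e101
  have g011 : G 0 1 1 = 0 := by linear_combination 1 * e010
  have g012 : G 0 1 2 = 0 := by linear_combination (-2) * e000 + (-1) * e010 + 2 * e100 + (-1) * e101 + (-1) * e200 + (-2) * e201 + (-2) * e202
  have g020 : G 0 2 0 = 0 := by linear_combination 1 * e102
  have g021 : G 0 2 1 = 0 := by linear_combination 1 * e000 + (-1) * e020 + (-1) * e100 + (-1) * e102 + 1 * e200 + 1 * e201 + 1 * e202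
  have g022 : G 0 2 2 = 0 := by linear_combination 1 * e020
  have g100 : G 1 0 0 = 0 := by linear_combination 1 * e001
  have g101 : G 1 0 1 = 0 := by linear_combination 1 * e110
  have g102 : G 1 0 2 = 0 := by linear_combination (-1) * e001 + (-1/2) * e011 + (-1) * e110 + 1 * e111 + (-1/2) * e210 + (-1/2) * e211 + (-1/2) * e212
  have g110 : G 1 1 0 = 0 := by linear_combination 1 * e210
  have g111 : G 1 1 1 = 0 := by linear_combination 1 * e011
  have g112 : G 1 1 2 = 0 := by linear_combination 1 * e212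
  have g120 : G 1 2 0 = 0 := by linear_combination (-1/2) * e011 + (-1) * e021 + (-1) * e112 + (-1/2) * e210 + (1/2) * e211 + (-1/2) * e212
  have g121 : G 1 2 1 = 0 := by linear_combination 1 * e112
  have g122 : G 1 2 2 = 0 := by linear_combination 1 * e021
  have g200 : G 2 0 0 = 0 := by linear_combination 1 * e002
  have g201 : G 2 0 1 = 0 := by linear_combination (-1) * e002 + 1 * e022 + (-1) * e120 + 1 * e122 + 1 * e220 + 1 * e221 + (-1) * e222
  have g202 : G 2 0 2 = 0 := by linear_combination 1 * e120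
  have g210 : G 2 1 0 = 0 := by linear_combination (-1) * e012 + (-2) * e022 + (-1) * e121 + (-2) * e220 + (-2) * e221 + 1 * e222
  have g211 : G 2 1 1 = 0 := by linear_combination 1 * e012
  have g212 : G 2 1 2 = 0 := by linear_combination 1 * e121
  have g220 : G 2 2 0 = 0 := by linear_combination 1 * e220
  have g221 : G 2 2 1 = 0 := by linear_combination 1 * e221
  have g222 : G 2 2 2 = 0 := by linear_combination 1 * e022
  intro s u v
  fin_cases s <;> fin_cases u <;> fin_cases v <;> assumption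

end Pool.Agent.MaxRank
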