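import Pool.Agent.MaxRank.Basic

set_option autoImplicit false

/-!
The lower bound for the maximal rank by counting dimensions.
-/

namespace Pool.Agent.MaxRank

open Finset Module Set

section lower

variable {m r : ℕ}

/-- Parametrisation of sums of `r` decomposable arrays whose second and third factors are
normalised at prescribed coordinates. -/
noncomputable def Psi (β γ : Fin r → Fin (m + 1))
    (p : Fin r → (Fin (m + 1) → ℂ) × (Fin m → ℂ) × (Fin m → ℂ)) :
    Fin (m + 1) → Fin (m + 1) → Fin (m + 1) → ℂ :=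
  fun i j k => ∑ s, (p s).1 i * (Fin.insertNth (α := fun _ => ℂ) (β s) 1 (p s).2.1) j *
    (Fin.insertNth (α := fun _ => ℂ) (γ s) 1 (p s).2.2) k

lemma contDiff_insertNth {E : Type} [NormedAddCommGroup E] [NormedSpace ℝ E] (β j : Fin (m + 1))
    (f : E → Fin m → ℂ) (hf : ContDiff ℝ 1 f) :
    ContDiff ℝ 1 (fun e => (Fin.insertNth (α := fun _ => ℂ) β 1 (f e)) j) := by
  rcases Fin.eq_self_or_eq_succAbove β j with h | ⟨j', h⟩
  · subst h
    simp only [Fin.insertNth_apply_same]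
    exact contDiff_const
  · subst h
    simp only [Fin.insertNth_apply_succAbove]
    exact contDiff_pi.1 hf j'

lemma contDiff_Psi (β γ : Fin r → Fin (m + 1)) : ContDiff ℝ 1 (Psi β γ) := by
  unfold Psi
  refine contDiff_pi.2 fun i => contDiff_pi.2 fun j => contDiff_pi.2 fun k => ?_
  refine ContDiff.sum fun s _ => ?_
  refine ContDiff.mul (ContDiff.mul ?_ ?_) ?_
  · fun_prop
  · exact contDiff_insertNth (β s) j
      (fun p : Fin r → (Fin (m + 1) → ℂ) × (Fin m → ℂ) × (Fin m → ℂ) => (p s).2.1) (by fun_prop)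
  · exact contDiff_insertNth (γ s) k
      (fun p : Fin r → (Fin (m + 1) → ℂ) × (Fin m → ℂ) × (Fin m → ℂ) => (p s).2.2) (by fun_prop)

lemma insertNth_div (b : Fin (m + 1) → ℂ) (β : Fin (m + 1)) (hβ : b β ≠ 0) (j : Fin (m + 1)) :
    b β * (Fin.insertNth (α := fun _ => ℂ) β 1 (fun j' => b (β.succAbove j') / b β)) j = b j := by
  rcases Fin.eq_self_or_eq_succAbove β j with h | ⟨j', h⟩
  · subst h; simp
  · subst h
    simp only [Fin.insertNth_apply_succAbove]
    field_simp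

lemma mem_range_Psi (T : Fin (m + 1) → Fin (m + 1) → Fin (m + 1) → ℂ)
    (a b c : Fin r → Fin (m + 1) → ℂ) (hT : ∀ i j k, T i j k = ∑ s, a s i * b s j * c s k) :
    ∃ β γ : Fin r → Fin (m + 1), T ∈ range (Psi β γ) := by
  have key : ∀ s : Fin r, ∃ (β γ : Fin (m + 1)) (q : (Fin (m + 1) → ℂ) × (Fin m → ℂ) × (Fin m → ℂ)),
      ∀ i j k, a s i * b s j * c s k = q.1 i *
        (Fin.insertNth (α := fun _ => ℂ) β 1 q.2.1) j *
        (Fin.insertNth (α := fun _ => ℂ) γ 1 q.2.2) k := by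
    intro s
    by_cases hb : b s = 0
    · exact ⟨0, 0, (0, 0, 0), fun i j k => by simp [hb]⟩
    by_cases hc : c s = 0
    · exact ⟨0, 0, (0, 0, 0), fun i j k => by simp [hc]⟩
    obtain ⟨β, hβ⟩ : ∃ β, b s β ≠ 0 := by
      by_contra h; push Not at h; exact hb (funext h)
    obtain ⟨γ, hγ⟩ : ∃ γ, c s γ ≠ 0 := by
      by_contra h; push Not at h; exact hc (funext h)
    refine ⟨β, γ, (fun i => a s i * b s β * c s γ, fun j' => b s (β.succAbove j') / b s β,
      fun k' => c s (γ.succAbove k') / c s γ), fun i j k => ?_⟩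
    have h1 := insertNth_div (b s) β hβ j
    have h2 := insertNth_div (c s) γ hγ k
    simp only
    conv_lhs => rw [← h1, ← h2]
    ring
  choose β γ q hq using key
  refine ⟨β, γ, q, ?_⟩
  funext i j k
  rw [hT]
  exact Finset.sum_congr rfl fun s _ => (hq s i j k).symm

/-- If all arrays have rank at most `r` then `(m+1)³ ≤ (3m+1) r`. -/
theorem dim_le (h : ∀ T : Fin (m + 1) → Fin (m + 1) → Fin (m + 1) → ℂ,
    ∃ a b c : Fin r → Fin (m + 1) → ℂ, ∀ i j k, T i j k = ∑ s, a s i * b s j * c s k) :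
    (m + 1) ^ 3 ≤ (3 * m + 1) * r := by
  have hU : (univ : Set (Fin (m + 1) → Fin (m + 1) → Fin (m + 1) → ℂ)) =
      ⋃ q : (Fin r → Fin (m + 1)) × (Fin r → Fin (m + 1)), range (Psi q.1 q.2) := by
    symm
    rw [Set.eq_univ_iff_forall]
    intro T
    obtain ⟨a, b, c, hT⟩ := h T
    obtain ⟨β, γ, hm⟩ := mem_range_Psi T a b c hT
    exact Set.mem_iUnion.2 ⟨(β, γ), hm⟩
  have h1 : dimH (univ : Set (Fin (m + 1) → Fin (m + 1) → Fin (m + 1) → ℂ)) =
      finrank ℝ (Fin (m + 1) → Fin (m + 1) → Fin (m + 1) → ℂ) := Real.dimH_univ_eq_finrank _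
  have h2 : dimH (univ : Set (Fin (m + 1) → Fin (m + 1) → Fin (m + 1) → ℂ)) ≤
      finrank ℝ (Fin r → (Fin (m + 1) → ℂ) × (Fin m → ℂ) × (Fin m → ℂ)) := by
    rw [hU, dimH_iUnion]
    exact iSup_le fun q => (contDiff_Psi q.1 q.2).dimH_range_le
  rw [h1] at h2
  have h3 : finrank ℝ (Fin (m + 1) → Fin (m + 1) → Fin (m + 1) → ℂ) ≤
      finrank ℝ (Fin r → (Fin (m + 1) → ℂ) × (Fin m → ℂ) × (Fin m → ℂ)) := by
    exact_mod_cast h2
  simp only [Module.finrank_pi_fintype, Module.finrank_prod, Complex.finrank_real_complex,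
    Finset.sum_const, Finset.card_univ, Fintype.card_fin, smul_eq_mul] at h3
  nlinarith

end lower

end Pool.Agent.MaxRank
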